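import Mathlib

set_option autoImplicit false
set_option linter.style.haveILetI false

open Set TopologicalSpace Topology

namespace Pool.Agent.Results.MP_5cc1ac_gt.LindelofPowers

/-- The continuous real functions on `X` with the topology of pointwise convergence. -/
abbrev Cp (X : Type) [TopologicalSpace X] : Type := {f : X → ℝ // Continuous f}

theorem onto (r : ℝ) : ∃ t : ℝ, 1 ≤ t ∧ t * Real.sin t = r := by
  obtain ⟨k, hk⟩ := exists_nat_ge |r|
  set a : ℝ := Real.pi / 2 + k * (2 * Real.pi) with ha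
  have hpi := Real.pi_gt_three
  have hk0 : (0 : ℝ) ≤ k := Nat.cast_nonneg k
  have ha1 : 1 ≤ a := by
    have : (0 : ℝ) ≤ k * (2 * Real.pi) := by positivity
    linarith
  have hak : (k : ℝ) ≤ a := by
    have : (k : ℝ) * 1 ≤ k * (2 * Real.pi) := by
      apply mul_le_mul_of_nonneg_left _ hk0
      linarith
    linarith
  have hsa : Real.sin a = 1 := by
    rw [ha, Real.sin_add_nat_mul_two_pi, Real.sin_pi_div_two]
  have hsb : Real.sin (a + Real.pi) = -1 := by
    rw [Real.sin_add_pi, hsa]
  have hc : ContinuousOn (fun t : ℝ => t * Real.sin t) (Icc a (a + Real.pi)) := by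
    fun_prop
  have h := intermediate_value_Icc' (by linarith : a ≤ a + Real.pi) hc
  have hr : r ∈ Icc ((fun t : ℝ => t * Real.sin t) (a + Real.pi))
      ((fun t : ℝ => t * Real.sin t) a) := by
    simp only [hsa, hsb, mem_Icc]
    have := abs_le.1 hk
    constructor <;> linarith [this.1, this.2]
  obtain ⟨t, ht, htr⟩ := h hr
  exact ⟨t, le_trans ha1 ht.1, htr⟩

/-- A continuous switch: `0` on `t ≤ -1`, `1` on `1 ≤ t`. -/
noncomputable def lam (t : ℝ) : ℝ := max 0 (min 1 ((t + 1) / 2))

theorem lam_cont : Continuous lam := by unfold lam; fun_prop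

theorem lam_one {t : ℝ} (h : 1 ≤ t) : lam t = 1 := by
  unfold lam
  rw [min_eq_left (by linarith), max_eq_right (by norm_num)]

theorem lam_zero {t : ℝ} (h : t ≤ -1) : lam t = 0 := by
  unfold lam
  rw [min_eq_right (by linarith), max_eq_left (by linarith)]

section Square

variable {X : Type} [TopologicalSpace X] (x0 : X)

/-- Replace the value of `f` at the base point. -/
noncomputable def hh (f : Cp X) : Cp X :=
  ⟨fun x => f.1 x - f.1 x0 + f.1 x0 * Real.sin (f.1 x0), by
    have := f.2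
    fun_prop⟩

theorem hh_cont : Continuous (hh x0) := by
  refine Continuous.subtype_mk (continuous_pi fun x => ?_) _
  have h1 : Continuous fun f : Cp X => f.1 x :=
    (continuous_apply x).comp continuous_subtype_val
  have h2 : Continuous fun f : Cp X => f.1 x0 :=
    (continuous_apply x0).comp continuous_subtype_val
  exact (h1.sub h2).add (h2.mul (Real.continuous_sin.comp h2))

/-- The embedding of the square of `C_pC_p(X)` into `C_pC_p(X)`. -/
noncomputable def EE (p : Cp (Cp X) × Cp (Cp X)) : Cp (Cp X) :=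
  ⟨fun f => (1 - lam (f.1 x0)) * p.1.1 (hh x0 f) + lam (f.1 x0) * p.2.1 (hh x0 f), by
    have h2 : Continuous fun f : Cp X => f.1 x0 :=
      (continuous_apply x0).comp continuous_subtype_val
    have h3 := lam_cont.comp h2
    exact ((continuous_const.sub h3).mul (p.1.2.comp (hh_cont x0))).add
      (h3.mul (p.2.2.comp (hh_cont x0)))⟩

theorem EE_cont : Continuous (EE x0) := by
  refine Continuous.subtype_mk (continuous_pi fun f => ?_) _
  have h1 : Continuous fun p : Cp (Cp X) × Cp (Cp X) => p.1.1 (hh x0 f) :=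
    (continuous_apply (hh x0 f)).comp (continuous_subtype_val.comp continuous_fst)
  have h2 : Continuous fun p : Cp (Cp X) × Cp (Cp X) => p.2.1 (hh x0 f) :=
    (continuous_apply (hh x0 f)).comp (continuous_subtype_val.comp continuous_snd)
  exact (continuous_const.mul h1).add (continuous_const.mul h2)

/-- Change the value at the base point to `t`. -/
noncomputable def mv (t : ℝ) (g : Cp X) : Cp X :=
  ⟨fun x => g.1 x - g.1 x0 + t, by
    have := g.2
    fun_prop⟩

theorem mv_base (t : ℝ) (g : Cp X) : (mv x0 t g).1 x0 = t := by simp [mv]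

theorem hh_mv {t : ℝ} {g : Cp X} (h : t * Real.sin t = g.1 x0) : hh x0 (mv x0 t g) = g := by
  apply Subtype.ext
  funext x
  simp only [hh, mv]
  have : g.1 x0 - g.1 x0 + t = t := by ring
  rw [this, h]
  ring

theorem EE_ind : IsInducing (EE x0) := by
  choose tt h1 h2 using onto
  let P : Cp (Cp X) → (Cp X → ℝ) × (Cp X → ℝ) := fun F =>
    (fun g => F.1 (mv x0 (-(tt (g.1 x0))) g), fun g => F.1 (mv x0 (tt (g.1 x0)) g))
  have hP : Continuous P := by
    refine Continuous.prodMk (continuous_pi fun g => ?_) (continuous_pi fun g => ?_)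
    · exact (continuous_apply _).comp continuous_subtype_val
    · exact (continuous_apply _).comp continuous_subtype_val
  have hPE : P ∘ EE x0 = Prod.map Subtype.val Subtype.val := by
    funext p
    apply Prod.ext
    · funext g
      have e1 : hh x0 (mv x0 (-(tt (g.1 x0))) g) = g := by
        apply hh_mv
        rw [Real.sin_neg, neg_mul_neg]
        exact h2 _
      simp only [P, EE, Function.comp, mv_base, e1]
      rw [lam_zero (by linarith [h1 (g.1 x0)])]
      simp
    · funext g
      have e1 : hh x0 (mv x0 (tt (g.1 x0)) g) = g := hh_mv x0 (h2 _)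
      simp only [P, EE, Function.comp, mv_base, e1]
      rw [lam_one (h1 _)]
      simp
  refine IsInducing.of_comp (EE_cont x0) hP ?_
  rw [hPE]
  exact IsInducing.subtypeVal.prodMap IsInducing.subtypeVal

include x0 in
theorem pow_ind (n : ℕ) : ∃ E : (Fin n → Cp (Cp X)) → Cp (Cp X), IsInducing E := by
  induction n with
  | zero =>
    refine ⟨fun _ => ⟨fun _ => 0, continuous_const⟩, ⟨?_⟩⟩
    exact Subsingleton.elim _ _
  | succ n ih =>
    obtain ⟨E, hE⟩ := ih
    have h1 : IsInducing (fun f : Fin (n + 1) → Cp (Cp X) => (f 0, Fin.tail f)) := by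
      refine IsInducing.of_comp (g := fun p : Cp (Cp X) × (Fin n → Cp (Cp X)) =>
        (Fin.cons p.1 p.2 : Fin (n + 1) → Cp (Cp X))) ?_ ?_ ?_
      · refine Continuous.prodMk (continuous_apply 0) (continuous_pi fun i => ?_)
        exact continuous_apply i.succ
      · refine continuous_pi fun i => ?_
        refine Fin.cases ?_ (fun i => ?_) i
        · simpa using continuous_fst
        · simp only [Fin.cons_succ]
          exact (continuous_apply i).comp continuous_snd
      · have : ((fun p : Cp (Cp X) × (Fin n → Cp (Cp X)) =>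
            (Fin.cons p.1 p.2 : Fin (n + 1) → Cp (Cp X))) ∘
            fun f : Fin (n + 1) → Cp (Cp X) => (f 0, Fin.tail f)) = id := by
          funext f
          simp
        rw [this]
        exact IsInducing.id
    have h2 : IsInducing (Prod.map (id : Cp (Cp X) → Cp (Cp X)) E) := IsInducing.id.prodMap hE
    exact ⟨_, (EE_ind x0).comp (h2.comp h1)⟩

end Square

theorem hl_of_ind {A B : Type} [TopologicalSpace A] [TopologicalSpace B] {E : A → B}
    (hE : IsInducing E) [HereditarilyLindelofSpace B] : HereditarilyLindelofSpace A :=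
  ⟨fun _ _ => hE.isLindelof_iff.2 (HereditarilyLindelofSpace.isLindelof _)⟩

theorem hl_pow (X : Type) [TopologicalSpace X] [HereditarilyLindelofSpace (Cp (Cp X))] (n : ℕ) :
    HereditarilyLindelofSpace (Fin n → Cp (Cp X)) := by
  rcases isEmpty_or_nonempty X with h | ⟨⟨x0⟩⟩
  · haveI : Subsingleton (Cp X) := ⟨fun f g => Subtype.ext (Subsingleton.elim _ _)⟩
    haveI : SecondCountableTopology (Cp X → ℝ) := inferInstance
    haveI : SecondCountableTopology (Cp (Cp X)) := IsInducing.subtypeVal.secondCountableTopology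
    infer_instance
  · obtain ⟨E, hE⟩ := pow_ind x0 n
    exact hl_of_ind hE

/-- rational boxes around a point of an open set of `Fin k → Cp Z` -/
theorem box (Z : Type) [TopologicalSpace Z] (k : ℕ) (h : Fin k → Cp Z) (W : Set (Fin k → Cp Z))
    (hW : W ∈ 𝓝 h) : ∃ (n : ℕ) (U : Fin n → Fin k × ℚ × ℚ) (z : Fin n → Z),
      (∀ i, (h (U i).1).1 (z i) ∈ Ioo ((U i).2.1 : ℝ) ((U i).2.2 : ℝ)) ∧
      ∀ g : Fin k → Cp Z, (∀ i, (g (U i).1).1 (z i) ∈ Ioo ((U i).2.1 : ℝ) ((U i).2.2 : ℝ)) →
        g ∈ W := by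
  classical
  let j : (Fin k → Cp Z) → (Fin k × Z → ℝ) := fun g p => (g p.1).1 p.2
  have hj : IsInducing j := by
    have h1 : IsInducing (fun g : Fin k → Cp Z => fun i => (g i).1) :=
      IsInducing.piMap (f := fun (_ : Fin k) (g : Cp Z) => g.1) fun _ => IsInducing.subtypeVal
    refine IsInducing.of_comp (g := fun (F : Fin k × Z → ℝ) (i : Fin k) (z : Z) => F (i, z)) ?_ ?_ h1
    · refine continuous_pi fun p => ?_
      exact (continuous_apply p.2).comp (continuous_subtype_val.comp (continuous_apply p.1))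
    · exact continuous_pi fun i => continuous_pi fun z => continuous_apply (i, z)
  rw [hj.nhds_eq_comap, Filter.mem_comap] at hW
  obtain ⟨W2, hW2, hW2s⟩ := hW
  obtain ⟨W3, hW3s, hW3o, hW3m⟩ := mem_nhds_iff.1 hW2
  obtain ⟨I, u, hu, hus⟩ := isOpen_pi_iff.1 hW3o _ hW3m
  have hq : ∀ a : Fin k × Z, ∃ q : ℚ × ℚ, a ∈ I → j h a ∈ Ioo (q.1 : ℝ) (q.2 : ℝ) ∧
      Ioo (q.1 : ℝ) (q.2 : ℝ) ⊆ u a := by
    intro a
    by_cases ha : a ∈ I
    · obtain ⟨v, hv, hv1, hv2⟩ := Real.isTopologicalBasis_Ioo_rat.exists_subset_of_mem_open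
        (hu a ha).2 (hu a ha).1
      simp only [mem_iUnion, mem_singleton_iff] at hv
      obtain ⟨q1, q2, _, rfl⟩ := hv
      exact ⟨(q1, q2), fun _ => ⟨hv1, hv2⟩⟩
    · exact ⟨(0, 0), fun h => absurd h ha⟩
  choose q hq using hq
  let e := I.equivFin
  let z : Fin I.card → Fin k × Z := fun i => (e.symm i).1
  have hz : ∀ i, z i ∈ I := fun i => (e.symm i).2
  refine ⟨I.card, fun i => ((z i).1, q (z i)), fun i => (z i).2, fun i => (hq _ (hz i)).1, ?_⟩
  intro g hg
  apply hW2s
  apply hW3s
  apply hus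
  intro a ha
  have := hg (e ⟨a, ha⟩)
  have hza : z (e ⟨a, ha⟩) = a := by simp [z]
  simp only [hza] at this
  exact (hq a ha).2 this

/-- Powers of `Z` hereditarily Lindelof, then powers of `C_p(Z)` hereditarily separable. -/
theorem vz (Z : Type) [TopologicalSpace Z] (H : ∀ n : ℕ, HereditarilyLindelofSpace (Fin n → Z))
    (k : ℕ) (T : Set (Fin k → Cp Z)) : SeparableSpace T := by
  classical
  let O : (n : ℕ) → (Fin n → Fin k × ℚ × ℚ) → T → Set (Fin n → Z) := fun n U h =>
    {z | ∀ i, (h.1 (U i).1).1 (z i) ∈ Ioo ((U i).2.1 : ℝ) ((U i).2.2 : ℝ)}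
  have hO : ∀ n U h, IsOpen (O n U h) := by
    intro n U h
    have : O n U h = ⋂ i, {z : Fin n → Z |
        (h.1 (U i).1).1 (z i) ∈ Ioo ((U i).2.1 : ℝ) ((U i).2.2 : ℝ)} := by
      ext z
      simp [O]
    rw [this]
    refine isOpen_iInter_of_finite fun i => ?_
    exact isOpen_Ioo.preimage ((h.1 (U i).1).2.comp (continuous_apply i))
  have hc : ∀ n U, ∃ t : Set T, t.Countable ∧ ⋃ h ∈ t, O n U h = ⋃ h, O n U h := by
    intro n U
    haveI := H n
    exact eq_open_union_countable (O n U) (hO n U)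
  choose D hD1 hD2 using hc
  refine ⟨⟨⋃ n, ⋃ U, D n U, countable_iUnion fun n => countable_iUnion fun U => hD1 n U, ?_⟩⟩
  intro h
  rw [mem_closure_iff_nhds]
  intro W hW
  rw [nhds_induced, Filter.mem_comap] at hW
  obtain ⟨W1, hW1, hW1s⟩ := hW
  obtain ⟨n, U, z, hz, hg⟩ := box Z k h.1 W1 hW1
  have hmem : z ∈ ⋃ g, O n U g := mem_iUnion.2 ⟨h, hz⟩
  rw [← hD2] at hmem
  simp only [mem_iUnion, exists_prop] at hmem
  obtain ⟨g, hg1, hg2⟩ := hmem
  exact ⟨g, hW1s (hg g.1 hg2), mem_iUnion.2 ⟨_, mem_iUnion.2 ⟨_, hg1⟩⟩⟩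

/-- Powers of `Y` hereditarily separable, then powers of `C_p(Y)` hereditarily Lindelof. -/
theorem zv (Y : Type) [TopologicalSpace Y]
    (H : ∀ (n : ℕ) (T : Set (Fin n → Y)), SeparableSpace T) (k : ℕ) :
    HereditarilyLindelofSpace (Fin k → Cp Y) := by
  classical
  refine HereditarilyLindelofSpace.of_forall_isOpen fun O _ => ?_
  refine isLindelof_of_countable_subcover fun {ι} W hW hO => ?_
  let S : (n : ℕ) → (Fin n → Fin k × ℚ × ℚ) → Set (Fin n → Y) := fun n U =>
    {y | ∃ a, ∀ g : Fin k → Cp Y,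
      (∀ i, (g (U i).1).1 (y i) ∈ Ioo ((U i).2.1 : ℝ) ((U i).2.2 : ℝ)) → g ∈ W a}
  have hD : ∀ n U, ∃ D : Set (S n U), D.Countable ∧ Dense D := fun n U => by
    haveI := H n (S n U)
    exact exists_countable_dense _
  choose D hD1 hD2 using hD
  have ha : ∀ n U (y : S n U), ∃ a, ∀ g : Fin k → Cp Y,
      (∀ i, (g (U i).1).1 (y.1 i) ∈ Ioo ((U i).2.1 : ℝ) ((U i).2.2 : ℝ)) → g ∈ W a :=
    fun n U y => y.2
  choose a ha using ha
  refine ⟨⋃ n, ⋃ U, (fun y => a n U y) '' D n U,
    countable_iUnion fun n => countable_iUnion fun U => (hD1 n U).image _, ?_⟩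
  intro f hf
  obtain ⟨b, hb⟩ := mem_iUnion.1 (hO hf)
  obtain ⟨n, U, z, hz, hg⟩ := box Y k f (W b) ((hW b).mem_nhds hb)
  have hzS : z ∈ S n U := ⟨b, hg⟩
  let V : Set (Fin n → Y) :=
    {y | ∀ i, (f (U i).1).1 (y i) ∈ Ioo ((U i).2.1 : ℝ) ((U i).2.2 : ℝ)}
  have hV : IsOpen V := by
    have : V = ⋂ i, {y : Fin n → Y |
        (f (U i).1).1 (y i) ∈ Ioo ((U i).2.1 : ℝ) ((U i).2.2 : ℝ)} := by
      ext z
      simp [V]
    rw [this]
    refine isOpen_iInter_of_finite fun i => ?_
    exact isOpen_Ioo.preimage ((f (U i).1).2.comp (continuous_apply i))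
  obtain ⟨y, hy1, hy2⟩ := (hD2 n U).inter_open_nonempty (Subtype.val ⁻¹' V)
    (hV.preimage continuous_subtype_val) ⟨⟨z, hzS⟩, hz⟩
  refine mem_iUnion₂.2 ⟨a n U y, ?_, ha n U y f hy1⟩
  exact mem_iUnion.2 ⟨n, mem_iUnion.2 ⟨U, ⟨y, hy2, rfl⟩⟩⟩

theorem hl_of_perfect (Z : Type) [TopologicalSpace Z] [LindelofSpace Z]
    (h : ∀ C : Set Z, IsClosed C → IsGδ C) : HereditarilyLindelofSpace Z := by
  refine HereditarilyLindelofSpace.of_forall_isOpen fun U hU => ?_
  obtain ⟨S, hS1, hS2, hS3⟩ := h _ hU.isClosed_compl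
  have hUe : U = ⋃ s ∈ S, sᶜ := by
    rw [← compl_compl U, hS3, compl_sInter, sUnion_image]
  rw [hUe]
  exact hS2.isLindelof_biUnion fun s hs => (hS1 s hs).isClosed_compl.isLindelof

/-- evaluation -/
def ev (X : Type) [TopologicalSpace X] (x : X) : Cp (Cp X) :=
  ⟨fun f => f.1 x, (continuous_apply x).comp continuous_subtype_val⟩

theorem ev_ind (X : Type) [TopologicalSpace X] [T35Space X] : IsInducing (ev X) := by
  have hc : Continuous (ev X) := by
    refine Continuous.subtype_mk (continuous_pi fun f => ?_) _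
    exact f.2
  rw [isInducing_iff_nhds]
  intro x
  refine le_antisymm (hc.tendsto x).le_comap ?_
  intro V hV
  obtain ⟨V', hV's, hV'o, hxV'⟩ := mem_nhds_iff.1 hV
  obtain ⟨f, hf, hf0, hf1⟩ := CompletelyRegularSpace.completely_regular x V'ᶜ
    hV'o.isClosed_compl (by simpa using hxV')
  let F : Cp X := ⟨fun y => (f y : ℝ), continuous_subtype_val.comp hf⟩
  rw [Filter.mem_comap]
  refine ⟨{φ : Cp (Cp X) | φ.1 F < 1}, ?_, ?_⟩
  · have ho : IsOpen {φ : Cp (Cp X) | φ.1 F < 1} :=
      isOpen_Iio.preimage ((continuous_apply F).comp continuous_subtype_val)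
    refine ho.mem_nhds ?_
    show (f x : ℝ) < 1
    rw [hf0]
    norm_num
  · intro y hy
    by_contra hyV
    have h1 : y ∈ V'ᶜ := fun h => hyV (hV's h)
    have h2 : f y = 1 := hf1 h1
    have h3 : (f y : ℝ) < 1 := hy
    rw [h2] at h3
    simp at h3


theorem result : ∀ (X : Type) [TopologicalSpace X] [T35Space X],
    ((∀ n : ℕ, LindelofSpace (Fin n → X)) ∨
      LindelofSpace {g : {f : X → ℝ // Continuous f} → ℝ // Continuous g}) →
    PerfectlyNormalSpace {g : {f : X → ℝ // Continuous f} → ℝ // Continuous g} →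
    ∀ S : Set {h : {g : {f : X → ℝ // Continuous f} → ℝ // Continuous g} → ℝ // Continuous h},
      SeparableSpace S := by
  intro X _ _ hX hZ S
  have main : ∀ n : ℕ, HereditarilyLindelofSpace (Fin n → Cp (Cp X)) := by
    rcases hX with hX | hX
    · rcases isEmpty_or_nonempty X with h | h
      · haveI : Subsingleton (Cp X) := ⟨fun f g => Subtype.ext (Subsingleton.elim _ _)⟩
        haveI : SecondCountableTopology (Cp X → ℝ) := inferInstance
        haveI : SecondCountableTopology (Cp (Cp X)) :=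
          IsInducing.subtypeVal.secondCountableTopology
        exact fun n => inferInstance
      · obtain ⟨x0⟩ := h
        have h1 : ∀ n : ℕ, HereditarilyLindelofSpace (Fin n → X) := by
          intro n
          haveI := hX n
          obtain ⟨E, hE⟩ := pow_ind x0 n
          have h2 : IsInducing (fun (f : Fin n → X) (i : Fin n) => ev X (f i)) :=
            IsInducing.piMap (f := fun (_ : Fin n) (x : X) => ev X x) fun _ => ev_ind X
          have h3 := hE.comp h2
          refine hl_of_perfect _ fun C hC => ?_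
          obtain ⟨K, hK, hKC⟩ := h3.isClosed_iff.1 hC
          rw [← hKC]
          exact (hZ.closed_gdelta hK).preimage h3.continuous
        exact fun n => zv (Cp X) (fun n T => vz X h1 n T) n
    · haveI : HereditarilyLindelofSpace (Cp (Cp X)) :=
        hl_of_perfect _ fun C hC => hZ.closed_gdelta hC
      exact hl_pow X
  have h4 := fun T : Set (Fin 1 → Cp (Cp (Cp X))) => vz (Cp (Cp X)) main 1 T
  let c : Cp (Cp (Cp X)) → (Fin 1 → Cp (Cp (Cp X))) := fun h _ => h
  have hT := h4 (c '' S)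
  obtain ⟨D, hD1, hD2⟩ := exists_countable_dense (c '' S)
  let r : (c '' S : Set _) → S := fun t => ⟨t.1 0, by
    obtain ⟨s, hs, hst⟩ := t.2
    rw [← hst]
    exact hs⟩
  have hr : Continuous r := by
    refine Continuous.subtype_mk ?_ _
    exact (continuous_apply 0).comp continuous_subtype_val
  have hrs : Function.Surjective r := fun s => ⟨⟨c s.1, s.1, s.2, rfl⟩, Subtype.ext rfl⟩
  exact hrs.denseRange.separableSpace hr

end Pool.Agent.Results.MP_5cc1ac_gt.LindelofPowers
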